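import Pool.Agent.W564.SC.Lib

/-!
# Returns with few intermediate visits
-/

set_option autoImplicit false

open scoped Manifold ContDiff Topology
open Filter Set Metric

universe u

namespace Pool.Agent.K6.H72.FV

/-- the number of the visits to `W` of the orbit segment `F w, …, F^(T-1) w` -/
noncomputable def visits {N : Type*} (F : N → N) (W : Set N) (w : N) (T : ℕ) : ℕ :=
  {i : ℕ | 0 < i ∧ i < T ∧ F^[i] w ∈ W}.ncard

theorem visits_finite {N : Type*} (F : N → N) (W : Set N) (w : N) (T : ℕ) :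
    {i : ℕ | 0 < i ∧ i < T ∧ F^[i] w ∈ W}.Finite :=
  (Set.finite_lt_nat T).subset fun _ hi => hi.2.1

theorem visits_mono {N : Type*} (F : N → N) {W W' : Set N} (h : W ⊆ W') (w : N) (T : ℕ) :
    visits F W w T ≤ visits F W' w T :=
  Set.ncard_le_ncard (fun _ hi => ⟨hi.1, hi.2.1, h hi.2.2⟩) (visits_finite F W' w T)

theorem visits_split {N : Type*} (F : N → N) (W : Set N) (w : N) {i T : ℕ} (hi : 0 < i)
    (hiT : i < T) (hW : F^[i] w ∈ W) :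
    visits F W w i + 1 + visits F W (F^[i] w) (T - i) ≤ visits F W w T := by
  classical
  set A : Set ℕ := {j : ℕ | 0 < j ∧ j < i ∧ F^[j] w ∈ W} with hA
  set B : Set ℕ := {j : ℕ | 0 < j ∧ j < T - i ∧ F^[j] (F^[i] w) ∈ W} with hB
  have hAf : A.Finite := visits_finite F W w i
  have hBf : B.Finite := visits_finite F W _ (T - i)
  have h1 : (A ∪ {i} ∪ (fun j => j + i) '' B).ncard = A.ncard + 1 + B.ncard := by
    rw [Set.ncard_union_eq _ (hAf.union (Set.finite_singleton i)) (hBf.image _),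
      Set.ncard_union_eq _ hAf (Set.finite_singleton i), Set.ncard_singleton,
      Set.ncard_image_of_injective _ (add_left_injective i)]
    · rw [Set.disjoint_singleton_right]
      rintro ⟨-, h, -⟩
      exact absurd h (lt_irrefl _)
    · rw [Set.disjoint_left]
      rintro a (⟨-, h, -⟩ | h) ⟨b, ⟨hb, -, -⟩, hba⟩
      · simp only at hba
        omega
      · simp only [Set.mem_singleton_iff] at h
        simp only at hba
        omega
  have h2 : A ∪ {i} ∪ (fun j => j + i) '' B ⊆ {j : ℕ | 0 < j ∧ j < T ∧ F^[j] w ∈ W} := by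
    rintro a ((⟨h3, h4, h5⟩ | h) | ⟨b, ⟨hb, hb', hb''⟩, rfl⟩)
    · exact ⟨h3, by omega, h5⟩
    · rw [Set.mem_singleton_iff] at h
      subst h
      exact ⟨hi, hiT, hW⟩
    · refine ⟨by show 0 < b + i; omega, by show b + i < T; omega, ?_⟩
      show F^[b + i] w ∈ W
      rw [Function.iterate_add_apply]
      exact hb''
  have h3 := Set.ncard_le_ncard h2 (visits_finite F W w T)
  rw [h1] at h3
  exact h3

/-- radii -/
noncomputable def rad (κ : ℝ) (K : ℕ) (ρ₀ : ℝ) : ℕ → ℝ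
  | 0 => ρ₀
  | L + 1 => κ / 3 * rad κ K ρ₀ L ^ K

theorem rad_bounds {κ : ℝ} (hκ : 0 < κ) (hκ1 : κ ≤ 1) {K : ℕ} (hK : 2 ≤ K) {ρ₀ ε : ℝ}
    (h0 : 0 < ρ₀) (h1 : ρ₀ ≤ 1 / 8 * ε) (hε : ε ≤ 1) (L : ℕ) :
    0 < rad κ K ρ₀ L ∧ rad κ K ρ₀ L ≤ 1 / 8 * ε * (1 / 2) ^ L := by
  induction L with
  | zero => exact ⟨h0, by rw [pow_zero, mul_one]; exact h1⟩
  | succ L ih =>
    obtain ⟨h2, h3⟩ := ih
    have hε0 : 0 < ε := by linarith
    have h4 : (1 / 2 : ℝ) ^ L ≤ 1 := pow_le_one₀ (by norm_num) (by norm_num)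
    have h5 : 0 < (1 / 2 : ℝ) ^ L := by positivity
    have h6 : rad κ K ρ₀ L ≤ 1 / 8 := by
      refine h3.trans ?_
      nlinarith
    refine ⟨by simp only [rad]; positivity, ?_⟩
    have h7 : rad κ K ρ₀ L ^ K ≤ rad κ K ρ₀ L := by
      calc rad κ K ρ₀ L ^ K ≤ rad κ K ρ₀ L ^ 1 :=
            pow_le_pow_of_le_one h2.le (by linarith) (by omega)
        _ = _ := pow_one _
    calc rad κ K ρ₀ (L + 1) = κ / 3 * rad κ K ρ₀ L ^ K := rfl
      _ ≤ 1 / 2 * rad κ K ρ₀ L := by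
        apply mul_le_mul _ h7 (by positivity) (by norm_num)
        linarith
      _ ≤ 1 / 2 * (1 / 8 * ε * (1 / 2) ^ L) := by linarith
      _ = 1 / 8 * ε * (1 / 2) ^ (L + 1) := by ring

theorem rad_lower {κ : ℝ} (hκ : 0 < κ) (hκ1 : κ ≤ 1) {K : ℕ} (hK : 2 ≤ K) {ρ₀ : ℝ}
    (h0 : 0 < ρ₀) {C : ℝ} (hC : Real.exp (-C) ≤ ρ₀) (hC' : Real.exp (-C) ≤ κ / 3) (hC0 : 0 ≤ C)
    (L : ℕ) : Real.exp (-(C * (2 * K ^ L - 1))) ≤ rad κ K ρ₀ L := by
  induction L with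
  | zero =>
    simp only [rad, pow_zero]
    norm_num
    exact hC
  | succ L ih =>
    have hK' : (2 : ℝ) ≤ K := by exact_mod_cast hK
    have h1 : Real.exp (-(C * (2 * K ^ L - 1))) ^ K ≤ rad κ K ρ₀ L ^ K :=
      pow_le_pow_left₀ (Real.exp_nonneg _) ih K
    have h2 : Real.exp (-(C * (2 * K ^ (L + 1) - 1))) ≤
        Real.exp (-C) * Real.exp (-(C * (2 * K ^ L - 1))) ^ K := by
      rw [← Real.exp_nat_mul, ← Real.exp_add]
      apply Real.exp_le_exp.2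
      have h3 : (K : ℝ) ^ (L + 1) = K * K ^ L := by ring
      rw [h3]
      nlinarith [mul_nonneg hC0 (by linarith : (0 : ℝ) ≤ K - 2)]
    calc Real.exp (-(C * (2 * K ^ (L + 1) - 1)))
        ≤ Real.exp (-C) * Real.exp (-(C * (2 * K ^ L - 1))) ^ K := h2
      _ ≤ κ / 3 * rad κ K ρ₀ L ^ K := by
        apply mul_le_mul hC' h1 (by positivity) (by positivity)
      _ = rad κ K ρ₀ (L + 1) := rfl

/-- small displacements -/
noncomputable def eta (κ : ℝ) (K : ℕ) (ρ₀ : ℝ) : ℕ → ℝ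
  | 0 => 3 * ρ₀
  | L + 1 => κ * rad κ K ρ₀ L ^ K

/-- The dichotomy at each scale. -/
theorem many_visits {N E : Type*} [NormedAddCommGroup E] (F : N → N) (S W : Set N) (χ : N → E)
    {κ ε : ℝ} (hκ : 0 < κ) (hκ1 : κ ≤ 1) (hε : 0 < ε) (hεκ : ε ≤ κ) {K : ℕ} (hK : 2 ≤ K)
    (hW : ∀ y ∈ S, ‖χ y‖ < ε → y ∈ W)
    (hstar : ∀ (w : N) (ρ : ℝ) (T : ℕ), w ∈ S → ‖χ w‖ < κ → 0 < ρ → ρ < κ → 1 ≤ T → F^[T] w ∈ S →
      ‖χ (F^[T] w) - χ w‖ < κ * ρ ^ K → ∃ i, 0 < i ∧ i < T ∧ F^[i] w ∈ S ∧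
        ‖χ (F^[i] w) - χ w‖ < 2 * ρ)
    (ρ₀ : ℝ) (h0 : 0 < ρ₀) (h1 : ρ₀ ≤ 1 / 8 * ε) (L : ℕ) :
    ∀ (w : N) (T : ℕ), w ∈ S → ‖χ w‖ < ε * (1 / 2 + (1 / 2) ^ (L + 1)) → 1 ≤ T → F^[T] w ∈ S →
      ‖χ (F^[T] w) - χ w‖ < eta κ K ρ₀ L → 2 ^ L ≤ visits F W w T + 1 := by
  induction L with
  | zero => intro w T _ _ _ _ _; simp
  | succ L ih =>
    intro w T hw hwn hT hTS hd
    obtain ⟨h2, h3⟩ := rad_bounds hκ hκ1 hK h0 h1 (hεκ.trans hκ1) L
    set ρ := rad κ K ρ₀ L with hρ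
    have h4 : (1 / 2 : ℝ) ^ L ≤ 1 := pow_le_one₀ (by norm_num) (by norm_num)
    have h5 : 0 < (1 / 2 : ℝ) ^ L := by positivity
    have h6 : ρ ≤ 1 / 8 * ε := h3.trans (by nlinarith)
    have hρκ : ρ < κ := by linarith
    have e1 : (1 / 2 : ℝ) ^ (L + 1 + 1) = (1 / 2) ^ L / 4 := by ring
    have e2 : (1 / 2 : ℝ) ^ (L + 1) = (1 / 2) ^ L / 2 := by ring
    rw [e1] at hwn
    have hwn' : ‖χ w‖ < κ := by nlinarith
    obtain ⟨i, hi, hiT, hiS, hid⟩ := hstar w ρ T hw hwn' h2 hρκ hT hTS hd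
    -- `3 ρ ≤ η_L`
    have h7 : ρ ≤ 1 := by linarith
    have h8 : eta κ K ρ₀ (L + 1) ≤ ρ := by
      show κ * ρ ^ K ≤ ρ
      have h9 : ρ ^ K ≤ ρ := by
        calc ρ ^ K ≤ ρ ^ 1 := pow_le_pow_of_le_one h2.le h7 (by omega)
          _ = ρ := pow_one _
      nlinarith [pow_pos h2 K]
    have h10 : 3 * ρ ≤ eta κ K ρ₀ L := by
      rcases L with _ | L
      · exact le_rfl
      · show 3 * (κ / 3 * rad κ K ρ₀ L ^ K) ≤ κ * rad κ K ρ₀ L ^ K
        linarith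
    have hin : ‖χ (F^[i] w)‖ < ‖χ w‖ + 2 * ρ := by
      have := norm_sub_norm_le (χ (F^[i] w)) (χ w)
      linarith
    have h11 : 2 * ρ ≤ ε * (1 / 2) ^ L / 4 := by linarith
    have hiW : F^[i] w ∈ W := hW _ hiS (by nlinarith)
    have h12 := ih w i hw (by rw [e2]; nlinarith) hi hiS (by linarith)
    have h13 := ih (F^[i] w) (T - i) hiS (by rw [e2]; nlinarith) (by omega)
      (by rw [← Function.iterate_add_apply, show T - i + i = T by omega]; exact hTS) (by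
        rw [← Function.iterate_add_apply, show T - i + i = T by omega]
        have h14 : ‖χ (F^[T] w) - χ (F^[i] w)‖ ≤ ‖χ (F^[T] w) - χ w‖ + ‖χ (F^[i] w) - χ w‖ := by
          have := norm_sub_le (χ (F^[T] w) - χ w) (χ (F^[i] w) - χ w)
          rwa [sub_sub_sub_cancel_right] at this
        linarith)
    have h15 := visits_split F W w hi hiT hiW
    have h16 : 2 ^ (L + 1) = 2 ^ L + 2 ^ L := by ring
    omega

/-- The final form of the bound. -/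
theorem lower_bound {N E : Type*} [NormedAddCommGroup E] (F : N → N) (S W : Set N) (χ : N → E)
    {κ ε : ℝ} (hκ : 0 < κ) (hκ1 : κ ≤ 1) (hε : 0 < ε) (hεκ : ε ≤ κ) {K : ℕ} (hK : 2 ≤ K)
    (hW : ∀ y ∈ S, ‖χ y‖ < ε → y ∈ W)
    (hstar : ∀ (w : N) (ρ : ℝ) (T : ℕ), w ∈ S → ‖χ w‖ < κ → 0 < ρ → ρ < κ → 1 ≤ T → F^[T] w ∈ S →
      ‖χ (F^[T] w) - χ w‖ < κ * ρ ^ K → ∃ i, 0 < i ∧ i < T ∧ F^[i] w ∈ S ∧
        ‖χ (F^[i] w) - χ w‖ < 2 * ρ) :
    ∃ C : ℝ, 0 < C ∧ ∀ (w : N) (T : ℕ), w ∈ S → ‖χ w‖ < ε / 2 → 1 ≤ T → F^[T] w ∈ S →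
      Real.exp (-(C * ((visits F W w T : ℝ) + 1) ^ Real.logb 2 K)) ≤ ‖χ (F^[T] w) - χ w‖ := by
  set ρ₀ := 1 / 8 * ε with hρ₀
  have h0 : 0 < ρ₀ := by positivity
  set C : ℝ := 1 + |Real.log ρ₀| + |Real.log (κ / 3)| with hC
  have hC0 : 0 < C := by positivity
  have hC1 : Real.exp (-C) ≤ ρ₀ := by
    rw [← Real.le_log_iff_exp_le h0]
    have := neg_abs_le (Real.log ρ₀)
    have := abs_nonneg (Real.log (κ / 3))
    linarith
  have hC2 : Real.exp (-C) ≤ κ / 3 := by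
    rw [← Real.le_log_iff_exp_le (by positivity)]
    have := neg_abs_le (Real.log (κ / 3))
    have := abs_nonneg (Real.log ρ₀)
    linarith
  have hK' : (2 : ℝ) ≤ K := by exact_mod_cast hK
  refine ⟨3 * C * K, by positivity, fun w T hw hwn hT hTS => ?_⟩
  set m := visits F W w T with hm
  set j := Nat.log 2 (m + 1) with hj
  have hj1 : 2 ^ j ≤ m + 1 := Nat.pow_log_le_self 2 (by omega)
  have hj2 : m + 1 < 2 ^ (j + 1) := Nat.lt_pow_succ_log_self (by norm_num) _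
  have h1 : eta κ K ρ₀ (j + 1) ≤ ‖χ (F^[T] w) - χ w‖ := by
    by_contra hlt
    push Not at hlt
    have h2 : 0 < (1 / 2 : ℝ) ^ (j + 1 + 1) := by positivity
    have := many_visits F S W χ hκ hκ1 hε hεκ hK hW hstar ρ₀ h0 le_rfl (j + 1) w T hw
      (by nlinarith) hT hTS hlt
    omega
  refine le_trans ?_ h1
  have h3 := rad_lower hκ hκ1 hK h0 hC1 hC2 hC0.le j
  have h4 : Real.exp (-(C * (2 * K ^ j - 1))) ^ K ≤ rad κ K ρ₀ j ^ K :=
    pow_le_pow_left₀ (Real.exp_nonneg _) h3 K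
  have h5 : (K : ℝ) ^ j ≤ ((m : ℝ) + 1) ^ Real.logb 2 K := by
    have h6 : (K : ℝ) = 2 ^ Real.logb 2 K := by
      rw [Real.rpow_logb (by norm_num) (by norm_num) (by linarith)]
    have h7 : ((2 : ℝ) ^ j) ≤ (m : ℝ) + 1 := by exact_mod_cast hj1
    have hl : 0 ≤ Real.logb 2 K := Real.logb_nonneg (by norm_num) (by linarith)
    calc (K : ℝ) ^ j = (2 ^ Real.logb 2 K) ^ j := by rw [← h6]
      _ = ((2 : ℝ) ^ j) ^ Real.logb 2 K := by
        rw [← Real.rpow_natCast (2 ^ Real.logb 2 (K : ℝ)) j, ← Real.rpow_mul (by norm_num),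
          mul_comm, Real.rpow_mul (by norm_num), Real.rpow_natCast]
      _ ≤ ((m : ℝ) + 1) ^ Real.logb 2 K := Real.rpow_le_rpow (by positivity) h7 hl
  have hKj : 1 ≤ (K : ℝ) ^ j := one_le_pow₀ (by linarith)
  calc Real.exp (-(3 * C * K * ((m : ℝ) + 1) ^ Real.logb 2 K))
      ≤ Real.exp (-(3 * C * K * K ^ j)) := by
        apply Real.exp_le_exp.2
        have : 3 * C * K * K ^ j ≤ 3 * C * K * ((m : ℝ) + 1) ^ Real.logb 2 K :=
          mul_le_mul_of_nonneg_left h5 (by positivity)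
        linarith
    _ ≤ Real.exp (-C) * Real.exp (-(C * (2 * K ^ j - 1))) ^ K := by
        rw [← Real.exp_nat_mul, ← Real.exp_add]
        apply Real.exp_le_exp.2
        have h8 : C * K * K ^ j ≥ C := by
          have : 1 ≤ (K : ℝ) * K ^ j := by nlinarith
          nlinarith
        nlinarith [mul_nonneg hC0.le (by linarith : (0 : ℝ) ≤ (K : ℝ))]
    _ ≤ κ * rad κ K ρ₀ j ^ K := by
        apply mul_le_mul (by linarith) h4 (by positivity) hκ.le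

end Pool.Agent.K6.H72.FV
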