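import Pool.Agent.K6.H72.FV.Abs
import Pool.Agent.Y368.GG.Main
import Pool.Agent.Y504.CO.KSG

/-!
# Points which cannot be closed: returns visit every neighbourhood many times
-/

set_option autoImplicit false

open scoped Manifold ContDiff Topology
open Filter Set Metric

universe u

namespace Pool.Agent.K6.H72.FV

open Pool.Agent.H718R2.G Pool.Agent.W564.SC Pool.Agent.TH80.OMS Pool.Agent.Y504.CO.KSG

/-- Near `z`, an orbit segment of `f` which returns with displacement `δ` (in the chart `χ`) visits every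
neighbourhood `W` of `z` at least `c (log (1/δ))^(1/log₂ K) - 1` times, where `2 ≤ K ≤ max(r, 2)`. -/
def ManyVisits {n : ℕ} {N : Type u} [TopologicalSpace N] [ChartedSpace (V n) N]
    (r : ℕ∞) (f : N → N) (χ : OpenPartialHomeomorph N (V n)) (z : N) : Prop :=
  ∃ K : ℕ, 2 ≤ K ∧ (K : ℕ∞) ≤ max r 2 ∧ ∀ W ∈ 𝓝 z, ∃ W' ∈ 𝓝 z, W' ⊆ χ.source ∧ ∃ C : ℝ, 0 < C ∧
    ∀ (w : N) (T : ℕ), w ∈ W' → 1 ≤ T → f^[T] w ∈ W' →
      Real.exp (-(C * ((visits f W w T : ℝ) + 1) ^ Real.logb 2 K)) ≤ ‖χ (f^[T] w) - χ w‖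

section
variable {n : ℕ} {N : Type u} [TopologicalSpace N] [T2Space N] [CompactSpace N]
  [ChartedSpace (V n) N] [IsManifold (𝓡 n) ∞ N]

theorem dichotomy {r : ℕ∞} (hr : 1 ≤ r) (f : DiffM n N r) (z : N)
    (χ : OpenPartialHomeomorph N (V n)) (hχ : GoodChart n N χ z) :
    Closable n N r f z ∨ ManyVisits r f χ z := by
  by_cases hcl : Closable n N r f z
  · exact Or.inl hcl
  right
  unfold Closable at hcl
  push Not at hcl
  obtain ⟨U, hU, hfU, hno⟩ := hcl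
  have hfam : IsFam n N r (fun _ : ℝ => f) := by
    intro y
    exact f.contMDiff.contMDiffAt.comp _ contMDiffAt_snd
  obtain ⟨k, hk, κ, hκ, hcl⟩ := t_CL n N r hr ℝ (fun _ => f) hfam χ z hχ U hU hfU
  set κ' := min κ 1 with hκ'
  have hκ'0 : 0 < κ' := lt_min hκ one_pos
  have hκ'1 : κ' ≤ 1 := min_le_right _ _
  have hκ'κ : κ' ≤ κ := min_le_left _ _
  set K := max k 2 with hK
  refine ⟨K, le_max_right _ _, ?_, ?_⟩
  · rw [hK]
    push_cast
    exact max_le_max hk le_rfl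
  intro W hW
  have hcont : ContinuousAt χ z := χ.continuousAt hχ.src
  obtain ⟨ε0, hε0, hball⟩ : ∃ ε0 : ℝ, 0 < ε0 ∧ ∀ y ∈ χ.source, ‖χ y‖ < ε0 → y ∈ W := by
    have h2 : ContinuousAt χ.symm (χ z) := χ.continuousAt_symm (χ.map_source hχ.src)
    have h3 : ∀ᶠ v in 𝓝 (χ z), χ.symm v ∈ W := by
      apply h2.eventually_mem
      rw [χ.left_inv hχ.src]
      exact hW
    rw [hχ.zero] at h3
    obtain ⟨ε, hε, h4⟩ := Metric.eventually_nhds_iff.1 h3
    refine ⟨ε, hε, fun y hy hn => ?_⟩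
    have := h4 (y := χ y) (by rw [dist_zero_right]; exact hn)
    rwa [χ.left_inv hy] at this
  set ε := min ε0 κ' with hε
  have hεpos : 0 < ε := lt_min hε0 hκ'0
  have hεκ : ε ≤ κ' := min_le_right _ _
  obtain ⟨C, hC, hlow⟩ := lower_bound f χ.source W χ hκ'0 hκ'1 hεpos hεκ (K := K)
    (le_max_right _ _) (fun y hy hn => hball y hy (hn.trans_le (min_le_left _ _))) (by
    intro w ρ T hw hwn hρ hρκ hT hTS hd
    by_contra hnot
    push Not at hnot
    obtain ⟨G, hG, hGz⟩ := hcl 0 w ρ T (by rw [norm_zero]; exact hκ) hw (hwn.trans_le hκ'κ) hρ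
      (hρκ.trans_le hκ'κ) hT hTS (by
        refine lt_of_lt_of_le hd ?_
        apply mul_le_mul hκ'κ _ (by positivity) hκ.le
        exact pow_le_pow_of_le_one hρ.le (hρκ.le.trans hκ'1) (le_max_left _ _)) (by
        intro i hi hiT hiS
        exact hnot i hi hiT hiS)
    exact hno G hG hGz)
  refine ⟨{y : N | y ∈ χ.source ∧ ‖χ y‖ < ε / 2}, ?_, fun y hy => hy.1, C, hC, ?_⟩
  · have h5 : χ.source ∈ 𝓝 z := χ.open_source.mem_nhds hχ.src
    have h7 : ∀ᶠ y in 𝓝 z, ‖χ y‖ < ε / 2 := by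
      have h8 := hcont.tendsto.norm
      rw [hχ.zero, norm_zero] at h8
      exact h8.eventually (gt_mem_nhds (half_pos hεpos))
    filter_upwards [h5, h7] with y hy1 hy2
    exact ⟨hy1, hy2⟩
  · intro w T hw hT hTw
    exact hlow w T hw.1 hw.2 hT hTw.1

/-- Nonwandering points with returns visiting a fixed neighbourhood a bounded number of times can be
closed. -/
theorem closable_of_bounded {r : ℕ∞} (hr : 1 ≤ r) (f : DiffM n N r) (z : N) (W : Set N)
    (hW : W ∈ 𝓝 z) (M : ℕ) (h : ∀ V ∈ 𝓝 z, ∃ w ∈ V, ∃ T : ℕ, 1 ≤ T ∧ f^[T] w ∈ V ∧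
      visits f W w T ≤ M) : Closable n N r f z := by
  obtain ⟨χ, hχ⟩ := Pool.Agent.W699.SC.gc n N z
  refine (dichotomy hr f z χ hχ).resolve_right ?_
  rintro ⟨K, hK, -, hmany⟩
  obtain ⟨W', hW', hW's, C, hC, hlow⟩ := hmany W hW
  have hK' : (2 : ℝ) ≤ K := by exact_mod_cast hK
  have hl : 0 ≤ Real.logb 2 K := Real.logb_nonneg (by norm_num) (by linarith)
  set δ := Real.exp (-(C * ((M : ℝ) + 1) ^ Real.logb 2 K)) with hδ
  have hδ0 : 0 < δ := Real.exp_pos _
  have hcont : ContinuousAt χ z := χ.continuousAt hχ.src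
  have hV : {y : N | y ∈ W' ∧ ‖χ y‖ < δ / 2} ∈ 𝓝 z := by
    have h7 : ∀ᶠ y in 𝓝 z, ‖χ y‖ < δ / 2 := by
      have h8 := hcont.tendsto.norm
      rw [hχ.zero, norm_zero] at h8
      exact h8.eventually (gt_mem_nhds (half_pos hδ0))
    filter_upwards [hW', h7] with y hy1 hy2
    exact ⟨hy1, hy2⟩
  obtain ⟨w, ⟨hw1, hw2⟩, T, hT, ⟨hT1, hT2⟩, hvis⟩ := h _ hV
  have h1 := hlow w T hw1 hT hT1
  have h2 : δ ≤ Real.exp (-(C * ((visits f W w T : ℝ) + 1) ^ Real.logb 2 K)) := by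
    apply Real.exp_le_exp.2
    apply neg_le_neg
    apply mul_le_mul_of_nonneg_left _ hC.le
    apply Real.rpow_le_rpow (by positivity) _ hl
    have : (visits f W w T : ℝ) ≤ M := by exact_mod_cast hvis
    linarith
  have h3 := norm_sub_le (χ (f^[T] w)) (χ w)
  linarith

end

theorem generic {n : ℕ} {N : Type u} [MetricSpace N] [CompactSpace N]
    [ChartedSpace (V n) N] [IsManifold (𝓡 n) ∞ N] (r : ℕ∞) (hr : 1 ≤ r) :
    BaireSet n N r {f | ∀ (z : N) (χ : OpenPartialHomeomorph N (V n)), GoodChart n N χ z →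
      z ∉ closure (Per f) → ManyVisits r f χ z} := by
  obtain ⟨R, h1, h2, h3⟩ := Pool.Agent.Y368.GG.generic_closable (n := n) (N := N) r hr
  exact ⟨R, h1, h2, fun f hf z χ hχ hz =>
    (dichotomy hr f z χ hχ).resolve_left fun h => hz (h3 f hf z h)⟩

end Pool.Agent.K6.H72.FV
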